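import Mathlib
import Pool.Agent.R37.SubdivBw

set_option autoImplicit false

/-!
Subdivided complete graphs with bounded reduced bandwidth are subdivided linearly often.
-/

namespace Pool.Agent.Results.MP_ec82ff_co.SubdividedComplete

open Pool.Agent.R37

/-- The vertices of the `p`-subdivision of `K_n`: the branch vertices `inl i`, and for each edge
`e = (i, j)` with `i < j` of `K_n` its `p` internal vertices `inr (e, 0), …, inr (e, p - 1)`. -/
abbrev Vert (n p : ℕ) : Type := Fin n ⊕ ({e : Fin n × Fin n // e.1 < e.2} × Fin p)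

/-- One direction of the adjacency: the first internal vertex of `e = (i, j)` is joined to `i`, the
last one to `j`, and consecutive internal vertices of `e` are joined. -/
def link (n p : ℕ) : Vert n p → Vert n p → Prop
  | Sum.inl i, Sum.inr (e, k) => (i = e.1.1 ∧ k.1 = 0) ∨ (i = e.1.2 ∧ k.1 + 1 = p)
  | Sum.inr (e, k), Sum.inr (e', k') => e = e' ∧ k.1 + 1 = k'.1
  | _, _ => False

/-- The `p`-subdivision of `K_n`. -/
def subdividedComplete (n p : ℕ) : SimpleGraph (Vert n p) := SimpleGraph.fromRel (link n p)

/-- the `k`-th vertex of the path from the branch vertex `a` to the branch vertex `j` -/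
def pathPt (n p : ℕ) (a j : Fin n) (k : ℕ) : Vert n p :=
  if h0 : k = 0 then Sum.inl a
  else if h : k ≤ p then
    if haj : a < j then Sum.inr (⟨(a, j), haj⟩, ⟨k - 1, by omega⟩)
    else if hja : j < a then Sum.inr (⟨(j, a), hja⟩, ⟨p - k, by omega⟩)
    else Sum.inl a
  else Sum.inl j

theorem adj_inl_inl {n p : ℕ} (i j : Fin n) :
    ¬ (subdividedComplete n p).Adj (Sum.inl i) (Sum.inl j) := by
  unfold subdividedComplete
  rw [SimpleGraph.fromRel_adj]
  simp [link]

theorem adj_inl_inr {n p : ℕ} (i : Fin n) (e : {e : Fin n × Fin n // e.1 < e.2}) (k : Fin p) :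
    (subdividedComplete n p).Adj (Sum.inl i) (Sum.inr (e, k)) ↔
      (i = e.1.1 ∧ k.1 = 0) ∨ (i = e.1.2 ∧ k.1 + 1 = p) := by
  unfold subdividedComplete
  rw [SimpleGraph.fromRel_adj]
  simp [link]

theorem adj_inr_inr {n p : ℕ} (e e' : {e : Fin n × Fin n // e.1 < e.2}) (k k' : Fin p) :
    (subdividedComplete n p).Adj (Sum.inr (e, k)) (Sum.inr (e', k')) ↔
      e = e' ∧ (k.1 + 1 = k'.1 ∨ k'.1 + 1 = k.1) := by
  unfold subdividedComplete
  rw [SimpleGraph.fromRel_adj]
  simp only [link, ne_eq, Sum.inr.injEq, Prod.mk.injEq, not_and]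
  constructor
  · rintro ⟨_, ⟨h1, h2⟩ | ⟨h1, h2⟩⟩
    · exact ⟨h1, Or.inl h2⟩
    · exact ⟨h1.symm, Or.inr h2⟩
  · rintro ⟨h1, h2⟩
    refine ⟨?_, ?_⟩
    · rintro _ rfl
      omega
    · rcases h2 with h2 | h2
      · exact Or.inl ⟨h1, h2⟩
      · exact Or.inr ⟨h1.symm, h2⟩

theorem pathPt_zero {n p : ℕ} (a j : Fin n) : pathPt n p a j 0 = Sum.inl a := by
  simp [pathPt]

theorem pathPt_last {n p : ℕ} (a j : Fin n) : pathPt n p a j (p + 1) = Sum.inl j := by
  simp [pathPt]

theorem pathPt_lt {n p : ℕ} {a j : Fin n} (haj : a < j) {k : ℕ} (h1 : 1 ≤ k) (h2 : k ≤ p) :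
    pathPt n p a j k = Sum.inr (⟨(a, j), haj⟩, ⟨k - 1, by omega⟩) := by
  unfold pathPt
  rw [dif_neg (by omega), dif_pos h2, dif_pos haj]

theorem pathPt_gt {n p : ℕ} {a j : Fin n} (haj : j < a) {k : ℕ} (h1 : 1 ≤ k) (h2 : k ≤ p) :
    pathPt n p a j k = Sum.inr (⟨(j, a), haj⟩, ⟨p - k, by omega⟩) := by
  unfold pathPt
  rw [dif_neg (by omega), dif_pos h2, dif_neg (not_lt_of_gt haj), dif_pos haj]

theorem data (n p : ℕ) (hp : 1 ≤ p) : SubdivData (subdividedComplete n p) n p
    (fun i => Sum.inl i) (pathPt n p) where
  inj := Sum.inl_injective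
  start a j _ := pathPt_zero a j
  stop a j _ := pathPt_last a j
  adj a j haj k hk := by
    rcases lt_or_gt_of_ne haj with h | h
    · by_cases h0 : k = 0
      · subst h0
        rw [pathPt_zero, pathPt_lt h (by omega) (by omega), adj_inl_inr]
        left; exact ⟨rfl, by simp⟩
      · by_cases h1 : k = p
        · subst h1
          rw [pathPt_last, pathPt_lt h (by omega) (by omega), SimpleGraph.adj_comm, adj_inl_inr]
          right
          refine ⟨rfl, ?_⟩
          show k - 1 + 1 = k
          omega
        · rw [pathPt_lt h (by omega) (by omega), pathPt_lt h (by omega) (by omega), adj_inr_inr]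
          refine ⟨rfl, Or.inl ?_⟩
          show k - 1 + 1 = k + 1 - 1
          omega
    · by_cases h0 : k = 0
      · subst h0
        rw [pathPt_zero, pathPt_gt h (by omega) (by omega), adj_inl_inr]
        right
        refine ⟨rfl, ?_⟩
        show p - (0 + 1) + 1 = p
        omega
      · by_cases h1 : k = p
        · subst h1
          rw [pathPt_last, pathPt_gt h (by omega) (by omega), SimpleGraph.adj_comm, adj_inl_inr]
          left
          refine ⟨rfl, ?_⟩
          show k - k = 0
          omega
        · rw [pathPt_gt h (by omega) (by omega), pathPt_gt h (by omega) (by omega), adj_inr_inr]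
          refine ⟨rfl, Or.inr ?_⟩
          show p - (k + 1) + 1 = p - k
          omega
  nbr a j haj k h1 h2 z hz := by
    rcases lt_or_gt_of_ne haj with h | h
    · rw [pathPt_lt h h1 h2] at hz
      rcases z with i | ⟨e, l⟩
      · rw [SimpleGraph.adj_comm, adj_inl_inr] at hz
        rcases hz with ⟨h3, h4⟩ | ⟨h3, h4⟩
        · left
          have h5 : k - 1 = 0 := h4
          rw [h5, pathPt_zero, h3]
        · right
          have h5 : k - 1 + 1 = p := h4
          have h6 : k + 1 = p + 1 := by omega
          rw [h6, pathPt_last, h3]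
      · rw [adj_inr_inr] at hz
        obtain ⟨rfl, h4⟩ := hz
        rcases h4 with h4 | h4
        · right
          have h5 : k - 1 + 1 = l.1 := h4
          rw [pathPt_lt h (by omega) (by have := l.2; omega)]
          congr 2
          apply Fin.ext
          show l.1 = k + 1 - 1
          omega
        · left
          have h5 : l.1 + 1 = k - 1 := h4
          rw [pathPt_lt h (by omega) (by omega)]
          congr 2
          apply Fin.ext
          show l.1 = k - 1 - 1
          omega
    · rw [pathPt_gt h h1 h2] at hz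
      rcases z with i | ⟨e, l⟩
      · rw [SimpleGraph.adj_comm, adj_inl_inr] at hz
        rcases hz with ⟨h3, h4⟩ | ⟨h3, h4⟩
        · right
          have h5 : p - k = 0 := h4
          have h6 : k + 1 = p + 1 := by omega
          rw [h6, pathPt_last, h3]
        · left
          have h5 : p - k + 1 = p := h4
          have h6 : k - 1 = 0 := by omega
          rw [h6, pathPt_zero, h3]
      · rw [adj_inr_inr] at hz
        obtain ⟨rfl, h4⟩ := hz
        rcases h4 with h4 | h4
        · left
          have h5 : p - k + 1 = l.1 := h4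
          rw [pathPt_gt h (by have := l.2; omega) (by omega)]
          congr 2
          apply Fin.ext
          show l.1 = p - (k - 1)
          omega
        · right
          have h5 : l.1 + 1 = p - k := h4
          rw [pathPt_gt h (by omega) (by omega)]
          congr 2
          apply Fin.ext
          show l.1 = p - (k + 1)
          omega
  disj a j j' haj haj' hjj k k' h1 h2 h3 heq := by
    have key : ∀ i : Fin n, a ≠ i → ∀ l, 1 ≤ l → l ≤ p →
        ∃ e m, pathPt n p a i l = Sum.inr (e, m) ∧ ((e.1.1 = a ∧ e.1.2 = i) ∨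
          (e.1.1 = i ∧ e.1.2 = a)) := by
      intro i hai l hl1 hl2
      rcases lt_or_gt_of_ne hai with h | h
      · exact ⟨_, _, pathPt_lt h hl1 hl2, Or.inl ⟨rfl, rfl⟩⟩
      · exact ⟨_, _, pathPt_gt h hl1 hl2, Or.inr ⟨rfl, rfl⟩⟩
    by_cases hk : k ≤ p
    · obtain ⟨e, m, he, he'⟩ := key j haj k h1 hk
      by_cases hk0 : k' = 0
      · rw [he, hk0, pathPt_zero] at heq
        cases heq
      · by_cases hk' : k' ≤ p
        · obtain ⟨e2, m2, he2, he2'⟩ := key j' haj' k' (by omega) hk'
          rw [he, he2] at heq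
          have h5 : e = e2 := by
            have := Sum.inr_injective heq
            exact congrArg Prod.fst this
          subst h5
          rcases he' with ⟨h6, h7⟩ | ⟨h6, h7⟩
          · rcases he2' with ⟨h8, h9⟩ | ⟨h8, h9⟩
            · exact hjj (h7.symm.trans h9)
            · exact haj' (h6.symm.trans h8)
          · rcases he2' with ⟨h8, h9⟩ | ⟨h8, h9⟩
            · exact haj (h8.symm.trans h6)
            · exact hjj (h6.symm.trans h8)
        · have h5 : k' = p + 1 := by omega
          rw [he, h5, pathPt_last] at heq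
          cases heq
    · have h5 : k = p + 1 := by omega
      rw [h5, pathPt_last] at heq
      by_cases hk0 : k' = 0
      · rw [hk0, pathPt_zero] at heq
        exact haj (Sum.inl_injective heq).symm
      · by_cases hk' : k' ≤ p
        · obtain ⟨e2, m2, he2, he2'⟩ := key j' haj' k' (by omega) hk'
          rw [he2] at heq
          cases heq
        · have h5 : k' = p + 1 := by omega
          rw [h5, pathPt_last] at heq
          exact hjj (Sum.inl_injective heq)
  branch a j haj k h1 h2 i heq := by
    rcases lt_or_gt_of_ne haj with h | h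
    · rw [pathPt_lt h h1 h2] at heq
      cases heq
    · rw [pathPt_gt h h1 h2] at heq
      cases heq
  nadj i j := adj_inl_inl i j

/-- For every constant `c` there is `δ > 0` such that if the `p`-subdivision of `K_n` has reduced
bandwidth at most `c` then `p ≥ δ n`. -/
theorem result : ∀ c : ℕ, ∃ δ : ℝ, 0 < δ ∧ ∀ n p : ℕ, 2 ≤ n → 1 ≤ p →
    reducedBandwidth (subdividedComplete n p) ≤ c → δ * (n : ℝ) ≤ (p : ℝ) := by
  intro c
  refine ⟨1 / (4 * c + 3), by positivity, ?_⟩
  intro n p _ hp hc
  have h1 := subdiv_bound (data n p hp) hp c hc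
  have h2 : n ≤ (4 * c + 3) * p := by
    have h3 : c * (p + 1) ≤ c * (2 * p) := Nat.mul_le_mul_left _ (by omega)
    have h4 : (4 * c + 3) * p = 2 * (c * (2 * p)) + 3 * p := by ring
    omega
  have h3 : (n : ℝ) ≤ (4 * (c : ℝ) + 3) * (p : ℝ) := by exact_mod_cast h2
  have h4 : (0 : ℝ) < 4 * (c : ℝ) + 3 := by positivity
  rw [div_mul_eq_mul_div, one_mul, div_le_iff₀ h4]
  linarith

end Pool.Agent.Results.MP_ec82ff_co.SubdividedComplete
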